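import Pool.Agent.V1198.BLQuot

/-!
# A Dedekind complete projective Banach lattice that is not an `ℓ_1`-sum of finite-dimensional ones

The lattice consists of the sequences in `ℓ_1`, and the norm is the supremum of `∑_{j ∈ F} |x j|`
over the finite sets `F` without two consecutive elements; the unit ball is the closed solid convex
hull of the vectors `e_j + e_{j+1}`. Lifts of `T e_j` are taken below lifts of `T (e_{j-1} + e_j)` and
`T (e_j + e_{j+1})` and made disjoint. Since `‖e_j + e_{j+1}‖ = 1`, consecutive unit vectors would be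
in the same summand of an `ℓ_1`-sum.
-/

set_option autoImplicit false

noncomputable section

open Filter Topology Pool.Agent.V1198.BL

namespace Pool.Agent.Results.MP_23899c_an.PathLattice

/-- Every nonempty subset that is bounded above has a supremum. -/
def DedekindComplete (P : BLat) : Prop :=
  ∀ A : Set P, A.Nonempty → BddAbove A → ∃ s, IsLUB A s

/-- Every countable nonempty subset that is bounded above has a supremum. -/
def DedekindSigmaComplete (P : BLat) : Prop :=
  ∀ A : Set P, A.Countable → A.Nonempty → BddAbove A → ∃ s, IsLUB A s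

/-- `P` is isometrically lattice isomorphic to the `ℓ_1`-sum of a countable family of
finite-dimensional Banach lattices `E i`: the lattice homomorphisms `U i` are the coordinates of an
isometry of `P` onto the families `y` with `∑ ‖y i‖ < ∞`. -/
def IsL1SumOfFiniteDimensional (P : BLat) : Prop :=
  ∃ (ι : Type) (_ : Countable ι) (E : ι → BLat) (U : ∀ i, P →L[ℝ] E i),
    (∀ i, FiniteDimensional ℝ (E i)) ∧ (∀ i, IsLatHom (U i)) ∧
    (∀ x, HasSum (fun i => ‖U i x‖) ‖x‖) ∧
    ∀ y : ∀ i, E i, (Summable fun i => ‖y i‖) → ∃ x, ∀ i, U i x = y i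

/-- The finite sets without consecutive elements. -/
def Indep : Set (Finset ℕ) := {F | ∀ i ∈ F, i + 1 ∉ F}

/-- The space. -/
def pathSpec : Spec ℕ := Spec.full Indep fun j => ⟨{j}, by
  intro i hi
  rw [Finset.mem_singleton] at hi ⊢
  omega, Finset.mem_singleton_self j⟩

/-- The Banach lattice. -/
abbrev path : BLat := spLat pathSpec

theorem path_l1Like : L1Like pathSpec where
  single j := ⟨1, by
    rintro _ ⟨F, rfl⟩
    classical
    have h1 : ∀ i, |(Pi.single j (1 : ℝ) : ℕ → ℝ) i| = if i = j then 1 else 0 := fun i => by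
      rw [Pi.single_apply]; split_ifs <;> simp
    simp only [h1, Finset.sum_ite_eq']
    split_ifs <;> norm_num⟩
  bound := ⟨2, by norm_num, fun x F => by
    classical
    have h1 : (F.filter Even) ∈ Indep := fun i hi h => by
      have h2 := (Finset.mem_filter.mp hi).2
      have h3 := (Finset.mem_filter.mp h).2
      exact (Nat.even_add_one.mp h3) h2
    have h2 : (F.filter fun i => ¬ Even i) ∈ Indep := fun i hi h => by
      have h2 := (Finset.mem_filter.mp hi).2
      have h3 := (Finset.mem_filter.mp h).2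
      exact h3 (Nat.even_add_one.mpr h2)
    rw [← Finset.sum_filter_add_sum_filter_not F Even]
    have h3 := Sp.sum_le_norm x h1
    have h4 := Sp.sum_le_norm x h2
    linarith⟩

theorem norm_pair_le (j : ℕ) : ‖path_l1Like.e j + path_l1Like.e (j + 1)‖ ≤ 1 := by
  refine Sp.norm_le zero_le_one fun F hF => ?_
  classical
  have h1 : ∀ i, |(path_l1Like.e j + path_l1Like.e (j + 1)) i| =
      (if i = j then 1 else 0) + if i = j + 1 then 1 else 0 := fun i => by
    rw [Sp.add_apply, L1Like.e_apply, L1Like.e_apply]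
    split_ifs <;> simp
  simp only [h1, Finset.sum_add_distrib, Finset.sum_ite_eq']
  by_cases hj : j ∈ F
  · rw [if_pos hj, if_neg (hF j hj), add_zero]
  · rw [if_neg hj, zero_add]; split_ifs <;> norm_num

theorem one_le_norm_e (j : ℕ) : 1 ≤ ‖path_l1Like.e j‖ := by
  have h := Sp.apply_le (path_l1Like.e j) j
  rwa [L1Like.e_apply, if_pos rfl, abs_one] at h

/-! ### The greedy cover -/

/-- The coefficients of the cover of `|a|` by multiples of `e_j + e_{j+1}`. -/
def lam (a : ℕ → ℝ) : ℕ → ℝ
  | 0 => |a 0|
  | j + 1 => max (|a (j + 1)| - lam a j) 0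

theorem lam_nonneg (a : ℕ → ℝ) (j : ℕ) : 0 ≤ lam a j := by
  cases j with
  | zero => exact abs_nonneg _
  | succ j => exact le_max_right _ _

theorem abs_le_lam (a : ℕ → ℝ) (j : ℕ) : |a (j + 1)| ≤ lam a j + lam a (j + 1) := by
  have : |a (j + 1)| - lam a j ≤ lam a (j + 1) := le_max_left _ _
  linarith

theorem exists_indep (a : ℕ → ℝ) (m : ℕ) :
    ∃ F ∈ Indep, (∀ i ∈ F, i < m) ∧ ∑ j ∈ Finset.range m, lam a j ≤ ∑ j ∈ F, |a j| := by
  classical
  have key : ∀ m, (∃ F ∈ Indep, (∀ i ∈ F, i < m) ∧
      ∑ j ∈ Finset.range m, lam a j ≤ ∑ j ∈ F, |a j|) ∧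
      ∃ F ∈ Indep, (∀ i ∈ F, i < m + 1) ∧
      ∑ j ∈ Finset.range (m + 1), lam a j ≤ ∑ j ∈ F, |a j| := by
    intro m
    induction m with
    | zero =>
      refine ⟨⟨∅, fun i hi => by simp at hi, by simp, by simp⟩, {0}, ?_, ?_, ?_⟩
      · intro i hi
        rw [Finset.mem_singleton] at hi ⊢
        omega
      · intro i hi; rw [Finset.mem_singleton] at hi; omega
      · simp [lam]
    | succ m ih =>
      refine ⟨ih.2, ?_⟩
      obtain ⟨⟨F, hF, hFm, hFs⟩, G, hG, hGm, hGs⟩ := ih
      by_cases h : |a (m + 1)| - lam a m ≤ 0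
      · refine ⟨G, hG, fun i hi => (hGm i hi).trans (Nat.lt_succ_self _), ?_⟩
        rw [Finset.sum_range_succ]
        have : lam a (m + 1) = 0 := max_eq_right h
        rw [this, add_zero]
        exact hGs
      · push Not at h
        refine ⟨insert (m + 1) F, ?_, ?_, ?_⟩
        · intro i hi hi2
          rw [Finset.mem_insert] at hi hi2
          rcases hi with hi | hi
          · rcases hi2 with hi2 | hi2
            · omega
            · have := hFm _ hi2; omega
          · rcases hi2 with hi2 | hi2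
            · have := hFm _ hi; omega
            · exact hF i hi hi2
        · intro i hi
          rw [Finset.mem_insert] at hi
          rcases hi with hi | hi
          · omega
          · have := hFm i hi; omega
        · have h1 : m + 1 ∉ F := fun h2 => by have := hFm _ h2; omega
          rw [Finset.sum_insert h1, Finset.sum_range_succ, Finset.sum_range_succ]
          have : lam a (m + 1) = |a (m + 1)| - lam a m := max_eq_left h.le
          rw [this]
          linarith
  exact (key m).1

theorem sum_lam_le (a : Sp pathSpec) (m : ℕ) : ∑ j ∈ Finset.range m, lam a j ≤ ‖a‖ := by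
  obtain ⟨F, hF, -, h⟩ := exists_indep a m
  exact h.trans (Sp.sum_le_norm a hF)

/-! ### Projectivity -/

theorem path_projective : Projective path := by
  intro X Y q hq T hT ε hε
  by_cases hT0 : T = 0
  · exact ⟨0, fun x => by simp, by rw [hT0]; ext; simp, by rw [hT0]; simp⟩
  have hTpos : 0 < ‖T‖ := norm_pos_iff.mpr hT0
  have he := path_l1Like.e_nonneg
  -- lifts of the pairs
  have hw : ∀ j, ∃ w : X, 0 ≤ w ∧ q w = T (path_l1Like.e j + path_l1Like.e (j + 1) : Sp pathSpec) ∧
      ‖w‖ ≤ (1 + ε) * ‖T‖ := by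
    intro j
    obtain ⟨z, hz0, hz1, hz2⟩ := hq.exists_pos_lift
      (y := T (path_l1Like.e j + path_l1Like.e (j + 1) : Sp pathSpec))
      (hT.nonneg (add_nonneg (he j) (he (j + 1)))) (η := ε * ‖T‖) (by positivity)
    refine ⟨z, hz0, hz1, hz2.le.trans ?_⟩
    have h1 : ‖T (path_l1Like.e j + path_l1Like.e (j + 1) : Sp pathSpec)‖ ≤ ‖T‖ * 1 :=
      (T.le_opNorm _).trans (mul_le_mul_of_nonneg_left (norm_pair_le j) (norm_nonneg _))
    linarith
  choose w hw0 hwq hwn using hw
  have hu : ∀ j, ∃ u : X, 0 ≤ u ∧ q u = T (path_l1Like.e j) := by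
    intro j
    obtain ⟨z, hz0, hz1, -⟩ := hq.exists_pos_lift (hT.nonneg (he j)) one_pos
    exact ⟨z, hz0, hz1⟩
  choose u hu0 huq using hu
  let z : ℕ → X := fun j => u j ⊓ w (j - 1) ⊓ w j
  have hz0 : ∀ j, 0 ≤ z j := fun j => le_inf (le_inf (hu0 j) (hw0 _)) (hw0 j)
  have hzw : ∀ j, z j ≤ w j := fun j => inf_le_right
  have hzw' : ∀ j, z (j + 1) ≤ w j := fun j => inf_le_left.trans inf_le_right
  have hzq : ∀ j, q (z j) = T (path_l1Like.e j) := by
    intro j
    have h1 : T (path_l1Like.e j) ≤ T (path_l1Like.e j + path_l1Like.e (j + 1) : Sp pathSpec) :=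
      hT.mono (le_add_of_nonneg_right (he (j + 1)))
    have h2 : T (path_l1Like.e j) ≤
        T (path_l1Like.e (j - 1) + path_l1Like.e (j - 1 + 1) : Sp pathSpec) := by
      refine hT.mono ?_
      rcases Nat.eq_zero_or_pos j with rfl | hj
      · exact le_add_of_nonneg_right (he _)
      · rw [Nat.sub_add_cancel hj]
        exact le_add_of_nonneg_left (he _)
    rw [hq.1.inf, hq.1.inf, huq, hwq, hwq, inf_eq_left.mpr h2, inf_eq_left.mpr h1]
  have hzn : ∀ j, ‖z j‖ ≤ (1 + ε) * ‖T‖ := fun j => (norm_mono' (hz0 j) (hzw j)).trans (hwn j)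
  obtain ⟨S, x, hS, hqS, hx0, hxz, hxd, habs⟩ := path_l1Like.exists_hom hq hT z hz0 hzq hzn
  refine ⟨S, hS, hqS, ContinuousLinearMap.opNorm_le_bound _ (by positivity) fun a => ?_⟩
  have hpair : ∀ j, x j + x (j + 1) ≤ w j := by
    intro j
    have h1 : x j + x (j + 1) = x j ⊔ x (j + 1) := by
      have h2 := inf_add_sup (x j) (x (j + 1))
      rw [hxd j (j + 1) (by omega), zero_add] at h2
      exact h2.symm
    rw [h1]
    exact sup_le ((hxz j).trans (hzw j)) ((hxz (j + 1)).trans (hzw' j))
  have hlim := ((habs a).tendsto_sum_nat).norm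
  rw [norm_abs_eq_norm] at hlim
  refine le_of_tendsto' hlim fun m => ?_
  set a' : Sp pathSpec := a with ha'
  have hle : ∀ m, ∑ j ∈ Finset.range (m + 1), |a' j| • x j ≤
      ∑ j ∈ Finset.range m, lam a' j • (x j + x (j + 1)) + lam a' m • x m := by
    intro m
    induction m with
    | zero => simp [lam]
    | succ m ih =>
      rw [Finset.sum_range_succ _ (m + 1),
        Finset.sum_range_succ (fun j => lam a' j • (x j + x (j + 1))) m]
      refine (add_le_add ih (smul_le_smul_of_nonneg_right (abs_le_lam a' m) (hx0 (m + 1)))).trans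
        (le_of_eq ?_)
      module
  have hle2 : ∑ j ∈ Finset.range m, |a' j| • x j ≤ ∑ j ∈ Finset.range m, lam a' j • w j := by
    rcases Nat.eq_zero_or_pos m with rfl | hm
    · simp
    · obtain ⟨k, rfl⟩ : ∃ k, m = k + 1 := ⟨m - 1, by omega⟩
      refine (hle k).trans ?_
      rw [Finset.sum_range_succ _ k]
      refine add_le_add (Finset.sum_le_sum fun j _ => ?_) ?_
      · exact smul_le_smul_of_nonneg_left (hpair j) (lam_nonneg _ _)
      · exact smul_le_smul_of_nonneg_left ((hxz k).trans (hzw k)) (lam_nonneg _ _)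
  have h0 : 0 ≤ ∑ j ∈ Finset.range m, |a' j| • x j :=
    Finset.sum_nonneg fun j _ => smul_nonneg (abs_nonneg _) (hx0 j)
  calc ‖∑ j ∈ Finset.range m, |a' j| • x j‖ ≤ ‖∑ j ∈ Finset.range m, lam a' j • w j‖ :=
        norm_mono' h0 hle2
    _ ≤ ∑ j ∈ Finset.range m, ‖lam a' j • w j‖ := norm_sum_le _ _
    _ ≤ ∑ j ∈ Finset.range m, lam a' j * ((1 + ε) * ‖T‖) := by
        refine Finset.sum_le_sum fun j _ => ?_
        rw [norm_smul, Real.norm_of_nonneg (lam_nonneg _ _)]
        exact mul_le_mul_of_nonneg_left (hwn j) (lam_nonneg _ _)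
    _ = (∑ j ∈ Finset.range m, lam a' j) * ((1 + ε) * ‖T‖) := by rw [Finset.sum_mul]
    _ ≤ ‖a'‖ * ((1 + ε) * ‖T‖) := mul_le_mul_of_nonneg_right (sum_lam_le a' m) (by positivity)
    _ = (1 + ε) * ‖T‖ * ‖a‖ := by ring

/-! ### Dedekind completeness -/

theorem path_dedekind : DedekindComplete path := by
  rintro A ⟨x₀, hx₀⟩ ⟨b, hb⟩
  set A' : Set (Sp pathSpec) := A with hA'
  set b' : Sp pathSpec := b
  set y : Sp pathSpec := x₀
  let s : ℕ → ℝ := fun j => sSup ((fun x : Sp pathSpec => x j) '' A')
  have hbdd : ∀ j, BddAbove ((fun x : Sp pathSpec => x j) '' A') := fun j => ⟨b' j, by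
    rintro _ ⟨x, hx, rfl⟩
    exact Sp.le_def.mp (hb hx) j⟩
  have hle : ∀ x ∈ A', ∀ j, x j ≤ s j := fun x hx j => le_csSup (hbdd j) ⟨x, hx, rfl⟩
  have hsle : ∀ c : Sp pathSpec, (∀ x ∈ A', x ≤ c) → ∀ j, s j ≤ c j := fun c hc j =>
    csSup_le ⟨_, y, hx₀, rfl⟩ (by rintro _ ⟨x, hx, rfl⟩; exact Sp.le_def.mp (hc x hx) j)
  have hs : s ∈ pathSpec.S := by
    refine ⟨‖y‖ + ‖b'‖, ?_⟩
    rintro _ ⟨F, rfl⟩
    calc ∑ j ∈ F.1, |s j| ≤ ∑ j ∈ F.1, (|y j| + |b' j|) := by
          refine Finset.sum_le_sum fun j _ => ?_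
          have h1 := hle y hx₀ j
          have h2 := hsle b' (fun x hx => hb hx) j
          rw [abs_le]
          constructor
          · have := neg_abs_le (y j)
            have := abs_nonneg (b' j)
            linarith
          · have := le_abs_self (b' j)
            have := abs_nonneg (y j)
            linarith
      _ = ∑ j ∈ F.1, |y j| + ∑ j ∈ F.1, |b' j| := Finset.sum_add_distrib
      _ ≤ _ := add_le_add (Sp.sum_le_norm y F.2) (Sp.sum_le_norm b' F.2)
  refine ⟨(⟨s, hs⟩ : Sp pathSpec), fun x hx => Sp.le_def.mpr fun j => hle x hx j, fun c hc => ?_⟩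
  exact Sp.le_def.mpr fun j => hsle c (fun x hx => hc hx) j

/-! ### Not an `ℓ_1`-sum -/

theorem path_not_l1Sum : ¬ IsL1SumOfFiniteDimensional path := by
  classical
  rintro ⟨ι, -, E, U, hfd, hU, hsum, hsurj⟩
  -- the family reflects the order and separates points
  have hzero : ∀ x : path, (∀ i, U i x = 0) → x = 0 := by
    intro x hx
    have h1 := hsum x
    simp only [hx, norm_zero] at h1
    exact norm_eq_zero.mp (h1.unique hasSum_zero)
  have hpos : ∀ x : path, (∀ i, 0 ≤ U i x) → 0 ≤ x := by
    intro x hx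
    have h1 : |x| - x = 0 := hzero _ fun i => by
      rw [map_sub, hU i, abs_of_nonneg (hx i), sub_self]
    rw [← sub_eq_zero.mp h1]
    exact abs_nonneg x
  -- each unit vector lives in one summand
  have hone : ∀ j, ∃ i, ∀ k, k ≠ i → U k (path_l1Like.e j) = 0 := by
    intro j
    have hne : (path_l1Like.e j : path) ≠ 0 := by
      intro h
      have h1 := one_le_norm_e j
      rw [show (path_l1Like.e j) = 0 from h, norm_zero] at h1
      linarith
    obtain ⟨i, hi⟩ : ∃ i, U i (path_l1Like.e j) ≠ 0 := by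
      by_contra hcon
      push Not at hcon
      exact hne (hzero _ hcon)
    refine ⟨i, ?_⟩
    obtain ⟨x, hx⟩ := hsurj (Pi.single i (U i (path_l1Like.e j)))
      (summable_of_hasFiniteSupport (Set.Finite.subset (Set.finite_singleton i) fun k hk => by
        by_contra h
        apply hk
        simp only [Set.mem_singleton_iff] at h
        simp [h]))
    have hxi : U i x = U i (path_l1Like.e j) := by rw [hx, Pi.single_eq_same]
    have hxk : ∀ k, k ≠ i → U k x = 0 := fun k hk => by rw [hx, Pi.single_eq_of_ne hk]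
    have hUe : ∀ k, 0 ≤ U k (path_l1Like.e j) := fun k => (hU k).nonneg (path_l1Like.e_nonneg j)
    have hx0 : 0 ≤ x := hpos x fun k => by
      by_cases hk : k = i
      · subst hk; rw [hxi]; exact hUe k
      · rw [hxk k hk]
    have hxe : 0 ≤ (show path.carrier from path_l1Like.e j) - x := hpos _ fun k => by
      rw [map_sub]
      by_cases hk : k = i
      · subst hk; rw [hxi]; exact (sub_self _).ge
      · rw [hxk k hk, sub_zero]; exact hUe k
    set x' : Sp pathSpec := x with hx'
    have hxc : x' = (x' j) • path_l1Like.e j := by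
      ext m
      rw [Sp.smul_apply, L1Like.e_apply]
      split_ifs with hm
      · rw [hm, mul_one]
      · have h1 := Sp.le_def.mp hx0 m
        have h2 := Sp.le_def.mp hxe m
        rw [Sp.sub_apply, L1Like.e_apply, if_neg hm] at h2
        rw [Sp.zero_apply] at h1 h2
        rw [mul_zero]
        linarith
    have hc : x' j ≠ 0 := by
      intro h
      rw [h, zero_smul] at hxc
      apply hi
      rw [← hxi, hxc]
      exact map_zero (U i)
    intro k hk
    have h1 := hxk k hk
    rw [hxc] at h1
    have h2 : U k ((x' j) • (show path.carrier from path_l1Like.e j)) = 0 := h1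
    rw [map_smul, smul_eq_zero] at h2
    exact h2.resolve_left hc
  choose c hc using hone
  have hnorm : ∀ j, ‖U (c j) (path_l1Like.e j)‖ = ‖path_l1Like.e j‖ := by
    intro j
    have h1 := hsum (path_l1Like.e j)
    have h2 := hasSum_single (f := fun i => ‖U i (path_l1Like.e j)‖) (c j) fun k hk => by
      rw [hc j k hk, norm_zero]
    exact h2.unique h1
  -- consecutive unit vectors are in the same summand
  have hstep : ∀ j, c (j + 1) = c j := by
    intro j
    by_contra hne
    have h1 := hsum (path_l1Like.e j + path_l1Like.e (j + 1) : Sp pathSpec)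
    have h2 : ∑ i ∈ {c j, c (j + 1)},
        ‖U i (path_l1Like.e j + path_l1Like.e (j + 1) : Sp pathSpec)‖ ≤
        ‖path_l1Like.e j + path_l1Like.e (j + 1)‖ :=
      sum_le_hasSum _ (fun _ _ => norm_nonneg _) h1
    have hadd : ∀ i, U i (path_l1Like.e j + path_l1Like.e (j + 1) : Sp pathSpec) =
        U i (path_l1Like.e j) + U i (path_l1Like.e (j + 1)) := fun i => map_add (U i) _ _
    rw [Finset.sum_pair (Ne.symm hne), hadd, hadd, hc (j + 1) (c j) (Ne.symm hne),
      hc j (c (j + 1)) hne, add_zero, zero_add, hnorm, hnorm] at h2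
    have h3 := norm_pair_le j
    have h4 := one_le_norm_e j
    have h5 := one_le_norm_e (j + 1)
    linarith
  have hconst : ∀ j, c j = c 0 := by
    intro j
    induction j with
    | zero => rfl
    | succ j ih => rw [hstep, ih]
  -- infinitely many independent vectors in a finite-dimensional space
  have hli : LinearIndependent ℝ fun j : ℕ => U (c 0) (path_l1Like.e j) := by
    rw [linearIndependent_iff']
    intro F g hg m hm
    have h1 : (∑ j ∈ F, g j • path_l1Like.e j : Sp pathSpec) = 0 := by
      refine hzero _ fun i => ?_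
      have h2 : U i (∑ j ∈ F, g j • (show path.carrier from path_l1Like.e j)) =
          ∑ j ∈ F, g j • U i (path_l1Like.e j) := by
        rw [map_sum]
        exact Finset.sum_congr rfl fun j _ => map_smul _ _ _
      by_cases hi : i = c 0
      · subst hi
        exact h2.trans hg
      · refine h2.trans (Finset.sum_eq_zero fun j _ => ?_)
        rw [hc j i (by rw [hconst]; exact hi), smul_zero]
    have h3 := path_l1Like.sum_smul_apply g F m
    rw [h1, Sp.zero_apply, if_pos hm] at h3
    exact h3.symm
  have := hfd (c 0)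
  exact Infinite.not_finite (hli.finite : Finite ℕ)

/-- **Result.** There is a projective Banach lattice which is Dedekind complete (and so Dedekind
`σ`-complete) but not isometrically lattice isomorphic to an `ℓ_1`-sum of finite-dimensional Banach
lattices. -/
theorem result : ∃ P : BLat, Projective P ∧ DedekindComplete P ∧ DedekindSigmaComplete P ∧
    ¬ IsL1SumOfFiniteDimensional P :=
  ⟨path, path_projective, path_dedekind, fun A _ h1 h2 => path_dedekind A h1 h2, path_not_l1Sum⟩

end Pool.Agent.Results.MP_23899c_an.PathLattice
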